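import Pool.Agent.W257.LStm

/-!
# Dehomogenisation
-/

set_option autoImplicit false

namespace Pool.Agent.W571.LV4

open MvPolynomial Finset

variable {R : Type} [CommRing R]

/-- projection of exponents -/
noncomputable def pr (s : Fin 3 →₀ ℕ) : Fin 2 →₀ ℕ := Finsupp.equivFunOnFinite.symm ![s 0, s 2]

/-- exponents with a given middle entry -/
noncomputable def em (n : Fin 2 →₀ ℕ) (j : ℕ) : Fin 3 →₀ ℕ :=
  Finsupp.equivFunOnFinite.symm ![n 0, j, n 1]

lemma pr_zero (s : Fin 3 →₀ ℕ) : pr s 0 = s 0 := rfl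
lemma pr_one (s : Fin 3 →₀ ℕ) : pr s 1 = s 2 := rfl
lemma em_zero (n : Fin 2 →₀ ℕ) (j : ℕ) : em n j 0 = n 0 := rfl
lemma em_one (n : Fin 2 →₀ ℕ) (j : ℕ) : em n j 1 = j := rfl
lemma em_two (n : Fin 2 →₀ ℕ) (j : ℕ) : em n j 2 = n 1 := rfl

lemma pr_em (n : Fin 2 →₀ ℕ) (j : ℕ) : pr (em n j) = n := by
  ext i
  fin_cases i <;> rfl

lemma eq_em {s : Fin 3 →₀ ℕ} {n : Fin 2 →₀ ℕ} (h : pr s = n) : s = em n (s 1) := by
  subst h
  ext i
  fin_cases i <;> rfl

lemma deg3 (s : Fin 3 →₀ ℕ) : s.degree = s 0 + s 1 + s 2 := by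
  rw [Finsupp.degree_eq_sum, Fin.sum_univ_three]

lemma deg2 (s : Fin 2 →₀ ℕ) : s.degree = s 0 + s 1 := by
  rw [Finsupp.degree_eq_sum, Fin.sum_univ_two]

/-- substitution `(x, y, z) = (X, c, Y)` -/
noncomputable def sb (c : R) : MvPolynomial (Fin 3) R →ₐ[R] MvPolynomial (Fin 2) R :=
  aeval ![X 0, C c, X 1]

lemma sb_apply (c : R) (H : MvPolynomial (Fin 3) R) :
    sb c H = ∑ s ∈ H.support, monomial (pr s) (coeff s H * c ^ s 1) := by
  rw [sb, aeval_def, eval₂_eq']
  refine Finset.sum_congr rfl fun s _ => ?_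
  rw [Fin.prod_univ_three, monomial_eq, Finsupp.prod_fintype _ _ (fun i => pow_zero _),
    Fin.prod_univ_two, pr_zero, pr_one]
  simp only [Matrix.cons_val_zero, Matrix.cons_val_one, Matrix.cons_val, algebraMap_eq, map_mul,
    map_pow]
  ring

lemma coeff_sb (c : R) (H : MvPolynomial (Fin 3) R) (n : Fin 2 →₀ ℕ) :
    coeff n (sb c H) = ∑ s ∈ H.support, if pr s = n then coeff s H * c ^ s 1 else 0 := by
  classical
  rw [sb_apply, coeff_sum]
  refine Finset.sum_congr rfl fun s _ => ?_
  rw [coeff_monomial]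

/-- for homogeneous polynomials only one term contributes -/
lemma coeff_sb_hom (c : R) {d : ℕ} {H : MvPolynomial (Fin 3) R} (hH : H.IsHomogeneous d)
    (n : Fin 2 →₀ ℕ) : coeff n (sb c H) =
      if n 0 + n 1 ≤ d then coeff (em n (d - (n 0 + n 1))) H * c ^ (d - (n 0 + n 1)) else 0 := by
  classical
  rw [coeff_sb]
  have hs : ∀ s ∈ H.support, s 0 + s 1 + s 2 = d := by
    intro s hs
    by_contra hne
    rw [← deg3] at hne
    exact (mem_support_iff.1 hs) (hH.coeff_eq_zero hne)
  by_cases hn : n 0 + n 1 ≤ d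
  · rw [if_pos hn]
    rw [Finset.sum_eq_single (em n (d - (n 0 + n 1)))]
    · rw [if_pos (pr_em _ _), em_one]
    · intro s hsup hne
      rw [if_neg]
      intro hpr
      apply hne
      have h1 := hs s hsup
      have h2 : s 0 = n 0 := by rw [← hpr]; rfl
      have h3 : s 2 = n 1 := by rw [← hpr]; rfl
      rw [eq_em hpr]
      congr 1
      omega
    · intro hsup
      rw [if_pos (pr_em _ _), notMem_support_iff.1 hsup, zero_mul]
  · rw [if_neg hn]
    refine Finset.sum_eq_zero fun s hsup => ?_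
    rw [if_neg]
    intro hpr
    have h1 := hs s hsup
    have h2 : s 0 = n 0 := by rw [← hpr]; rfl
    have h3 : s 2 = n 1 := by rw [← hpr]; rfl
    omega

/-- dehomogenisation is injective on forms of a given degree -/
lemma sb_one_inj {d : ℕ} {H : MvPolynomial (Fin 3) R} (hH : H.IsHomogeneous d)
    (h : sb 1 H = 0) : H = 0 := by
  ext s
  rw [coeff_zero]
  by_cases hs : s 0 + s 1 + s 2 = d
  · have h1 := coeff_sb_hom 1 hH (pr s)
    rw [h, coeff_zero, pr_zero, pr_one, if_pos (by omega), one_pow, mul_one] at h1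
    rw [h1]
    have h2 := eq_em (rfl : pr s = pr s)
    have h3 : s 1 = d - (s 0 + s 2) := by omega
    rw [← h3, ← h2]
  · rw [← deg3] at hs
    exact hH.coeff_eq_zero hs

lemma totalDegree_sb_le {d : ℕ} {H : MvPolynomial (Fin 3) R} (hH : H.IsHomogeneous d) :
    (sb 1 H).totalDegree ≤ d := by
  refine Finset.sup_le fun n hn => ?_
  by_contra hcon
  push Not at hcon
  have h1 := coeff_sb_hom 1 hH n
  rw [Finsupp.sum_fintype _ _ (fun _ => rfl), Fin.sum_univ_two] at hcon
  rw [if_neg (by omega)] at h1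
  exact (mem_support_iff.1 hn) h1

lemma homComp_sb {d : ℕ} {H : MvPolynomial (Fin 3) R} (hH : H.IsHomogeneous d) :
    homogeneousComponent d (sb 1 H) = sb 0 H := by
  classical
  ext n
  rw [coeff_homogeneousComponent, coeff_sb_hom 1 hH, coeff_sb_hom 0 hH, deg2]
  by_cases hn : n 0 + n 1 = d
  · rw [if_pos hn, if_pos hn.le, if_pos hn.le, hn, Nat.sub_self, one_pow, pow_zero]
  · rw [if_neg hn]
    by_cases hn' : n 0 + n 1 ≤ d
    · rw [if_pos hn', zero_pow (by omega), mul_zero]
    · rw [if_neg hn']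

/-- homogenisation -/
noncomputable def hz (d : ℕ) (P : MvPolynomial (Fin 2) R) : MvPolynomial (Fin 3) R :=
  ∑ j ∈ range (d + 1), X 1 ^ (d - j) * rename ![0, 2] (homogeneousComponent j P)

lemma hz_hom (d : ℕ) (P : MvPolynomial (Fin 2) R) : (hz d P).IsHomogeneous d := by
  refine IsHomogeneous.sum _ _ _ fun j hj => ?_
  rw [Finset.mem_range] at hj
  have h1 : (X 1 ^ (d - j) * rename ![0, 2] (homogeneousComponent j P) :
      MvPolynomial (Fin 3) R).IsHomogeneous ((d - j) + j) :=
    (isHomogeneous_X_pow _ _).mul ((homogeneousComponent_isHomogeneous j P).rename_isHomogeneous)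
  rwa [Nat.sub_add_cancel (by omega)] at h1

lemma sb_hz (d : ℕ) (P : MvPolynomial (Fin 2) R) (hP : P.totalDegree ≤ d) :
    sb 1 (hz d P) = P := by
  rw [hz, map_sum]
  have h1 : ∀ j ∈ range (d + 1), sb 1 (X 1 ^ (d - j) * rename ![0, 2] (homogeneousComponent j P) :
      MvPolynomial (Fin 3) R) = homogeneousComponent j P := by
    intro j _
    rw [map_mul, map_pow, sb, aeval_X, aeval_rename]
    have h2 : (![X 0, C 1, X 1] ∘ ![0, 2] : Fin 2 → MvPolynomial (Fin 2) R) = X := by
      funext i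
      fin_cases i <;> rfl
    rw [h2, aeval_X_left_apply]
    simp
  rw [Finset.sum_congr rfl h1]
  conv_rhs => rw [← sum_homogeneousComponent P]
  symm
  refine Finset.sum_subset (range_subset_range.2 (by omega)) fun j _ hj => ?_
  rw [Finset.mem_range] at hj
  exact homogeneousComponent_eq_zero _ _ (by omega)

/-- **irreducibility of the dehomogenisation** -/
theorem irreducible_sb {F : Type} [Field F] {m : ℕ} (hm : 1 ≤ m) {H : MvPolynomial (Fin 3) F}
    (hH : H.IsHomogeneous m) (hdeg : (sb 1 H).totalDegree = m) (hirr : Irreducible H) :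
    Irreducible (sb 1 H) := by
  have hne : sb 1 H ≠ 0 := by
    intro h0
    rw [h0, totalDegree_zero] at hdeg
    omega
  refine ⟨fun hu => ?_, fun {A B} hAB => ?_⟩
  · obtain ⟨B, hB⟩ := hu.exists_right_inv
    have hB0 : B ≠ 0 := by rintro rfl; rw [mul_zero] at hB; exact zero_ne_one hB
    have h1 := totalDegree_mul_of_isDomain hne hB0
    rw [hB, totalDegree_one] at h1
    omega
  · have hA : A ≠ 0 := by rintro rfl; exact hne (by rw [hAB, zero_mul])
    have hB : B ≠ 0 := by rintro rfl; exact hne (by rw [hAB, mul_zero])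
    have hd : A.totalDegree + B.totalDegree = m := by
      rw [← totalDegree_mul_of_isDomain hA hB, ← hAB, hdeg]
    have h1 : H = hz A.totalDegree A * hz B.totalDegree B := by
      have h2 : (hz A.totalDegree A * hz B.totalDegree B).IsHomogeneous m := by
        rw [← hd]
        exact (hz_hom _ _).mul (hz_hom _ _)
      have h3 := sb_one_inj (hH.sub h2) (by
        rw [map_sub, map_mul, sb_hz _ _ le_rfl, sb_hz _ _ le_rfl, hAB, sub_self])
      exact sub_eq_zero.1 h3
    rcases hirr.isUnit_or_isUnit h1 with h | h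
    · left
      have := h.map (sb (1 : F))
      rwa [sb_hz _ _ le_rfl] at this
    · right
      have := h.map (sb (1 : F))
      rwa [sb_hz _ _ le_rfl] at this

lemma map_sb {S : Type} [CommRing S] (φ : R →+* S) (c : R) (H : MvPolynomial (Fin 3) R) :
    map φ (sb c H) = sb (φ c) (map φ H) := by
  have h : ((map φ).comp (sb c : MvPolynomial (Fin 3) R →ₐ[R] MvPolynomial (Fin 2) R).toRingHom) =
      ((sb (φ c) : MvPolynomial (Fin 3) S →ₐ[S] MvPolynomial (Fin 2) S).toRingHom).comp (map φ) := by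
    apply MvPolynomial.ringHom_ext
    · intro r
      simp [sb]
    · intro i
      fin_cases i <;> simp [sb]
  exact congrArg (fun f => f H) h

theorem main : Pool.Agent.W257.S_deh := by
  intro m ρ H hm hH hprod
  have e1 : (aeval ![X 0, 1, X 1] H : MvPolynomial (Fin 2) ℤ) = sb 1 H := by
    rw [sb, map_one]
  have e0 : (aeval ![X 0, 0, X 1] H : MvPolynomial (Fin 2) ℤ) = sb 0 H := by
    rw [sb, map_zero]
  rw [e0] at hprod
  rw [e1]
  have hc : homogeneousComponent m (sb 1 H) =
      ∏ i, (X 0 - C (ρ i) * X 1 : MvPolynomial (Fin 2) ℤ) := by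
    rw [homComp_sb hH, hprod]
  have hne : homogeneousComponent m (sb 1 H) ≠ 0 := by
    rw [hc]
    intro h0
    have h1 := congrArg (aeval (R := ℤ) ![(1 : ℤ), 0]) h0
    rw [map_prod, map_zero] at h1
    simp at h1
  have hdeg : (sb 1 H).totalDegree = m := by
    refine le_antisymm (totalDegree_sb_le hH) ?_
    by_contra hcon
    push Not at hcon
    exact hne (homogeneousComponent_eq_zero _ _ hcon)
  refine ⟨hdeg, hc, fun hirr => ?_⟩
  rw [map_sb, map_one]
  have hHQ : (map (Int.castRingHom ℚ) H).IsHomogeneous m := hH.map _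
  refine irreducible_sb hm hHQ ?_ hirr
  have h2 : sb 1 (map (Int.castRingHom ℚ) H) = map (Int.castRingHom ℚ) (sb 1 H) := by
    rw [map_sb, map_one]
  rw [h2]
  have h3 : (map (Int.castRingHom ℚ) (sb 1 H)).totalDegree = (sb 1 H).totalDegree := by
    unfold totalDegree
    rw [support_map_of_injective _ (RingHom.injective_int _)]
  rw [h3, hdeg]

end Pool.Agent.W571.LV4
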